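import Mathlib
import Pool.Agent.Lib.MP_6bc78b_nt.MS.P3.Iface

/-! Project MS (MP_6bc78b_nt), Part III, module CAV: the circle averages. -/

set_option autoImplicit false

open Complex Filter Topology ArithmeticFunction

namespace Pool.Agent.Lib.MP_6bc78b_nt.MS.P3.H17

namespace Cav

lemma circ (θ : ℝ) : circleMap 0 (1 / 4) θ = 1 / 4 * Complex.exp (θ * I) := by
  simp [circleMap]

lemma cav_entire {f : ℂ → ℂ} (hf : Differentiable ℂ f) : cav f = f 0 := by
  have h := hf.diffContOnCl (s := Metric.ball (0 : ℂ) |(1 / 4 : ℝ)|)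
  have h2 := h.circleAverage
  rw [Real.circleAverage_def] at h2
  rw [← h2]
  unfold cav
  simp only [circ]
  rw [Complex.real_smul, Complex.ofReal_inv]

lemma cav_inv {f : ℂ → ℂ} (hf : Differentiable ℂ f) :
    cav (fun A => A⁻¹ * f A) = deriv f 0 := by
  have h := two_pi_I_inv_smul_circleIntegral_sub_sq_inv_smul_of_differentiable
    (U := Set.univ) isOpen_univ (c := 0) (w₀ := 0) (R := 1 / 4) (f := f)
    (Set.subset_univ _) hf.differentiableOn (by simp)
  rw [← h]
  unfold cav circleIntegral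
  simp only [deriv_circleMap, circ, sub_zero, smul_eq_mul]
  have e : ∀ θ : ℝ, 1 / 4 * Complex.exp (θ * I) * I *
      (((1 / 4 * Complex.exp (θ * I)) ^ 2)⁻¹ * f (1 / 4 * Complex.exp (θ * I))) =
      I * ((1 / 4 * Complex.exp (θ * I))⁻¹ * f (1 / 4 * Complex.exp (θ * I))) := by
    intro θ
    have hx : 1 / 4 * Complex.exp (θ * I) ≠ 0 := by
      apply mul_ne_zero (by norm_num) (Complex.exp_ne_zero _)
    field_simp
  simp only [e]
  rw [intervalIntegral.integral_const_mul]
  have hpi : (Real.pi : ℂ) ≠ 0 := by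
    exact_mod_cast Real.pi_ne_zero
  set J := ∫ θ in (0 : ℝ)..(2 * Real.pi),
    (1 / 4 * Complex.exp (θ * I))⁻¹ * f (1 / 4 * Complex.exp (θ * I)) with hJ
  rw [mul_inv, ← mul_assoc, mul_assoc _ I⁻¹ I, inv_mul_cancel₀ I_ne_zero, mul_one]
  push_cast
  rfl

lemma hasDeriv (L : ℂ) {n : ℕ} (hn : n ≠ 0) (A : ℂ) :
    HasDerivAt (fun A : ℂ => (n : ℂ) ^ (-(A / L))) ((n : ℂ) ^ (-(A / L)) *
      (-(Complex.log n / L))) A := by
  have hn' : (n : ℂ) ≠ 0 := by exact_mod_cast hn
  have h1 : HasDerivAt (fun A : ℂ => -(A / L)) (-(1 / L)) A :=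
    ((hasDerivAt_id A).div_const L).neg
  have h2 := h1.const_cpow (c := (n : ℂ)) (Or.inl hn')
  convert h2 using 1
  ring

end Cav

theorem cavS : CavStatement := by
  intro T hT n hn
  set L : ℂ := (Real.log T : ℂ) with hL
  have hd : ∀ d : ℕ, d ≠ 0 → Differentiable ℂ (fun A : ℂ => (d : ℂ) ^ (-(A / L))) :=
    fun d hd A => (Cav.hasDeriv L hd A).differentiableAt
  have hsum : ∀ A : ℂ, (pw (A / L) * muC) n =
      ∑ x ∈ n.divisorsAntidiagonal, (x.1 : ℂ) ^ (-(A / L)) * muC x.2 := by
    intro A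
    rw [ArithmeticFunction.mul_apply]
    refine Finset.sum_congr rfl fun x hx => ?_
    have hx1 : x.1 ≠ 0 := by
      have := (Nat.mem_divisorsAntidiagonal.1 hx)
      intro h0
      rw [h0, zero_mul] at this
      exact hn this.1.symm
    simp [pw, hx1]
  have hx1 : ∀ x ∈ n.divisorsAntidiagonal, x.1 ≠ 0 := by
    intro x hx h0
    have := (Nat.mem_divisorsAntidiagonal.1 hx)
    rw [h0, zero_mul] at this
    exact hn this.1.symm
  have hder : HasDerivAt (fun A : ℂ => (pw (A / L) * muC) n)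
      (∑ x ∈ n.divisorsAntidiagonal, (-(Complex.log x.1 / L)) * muC x.2) 0 := by
    simp only [hsum]
    apply HasDerivAt.fun_sum
    intro x hx
    have := (Cav.hasDeriv L (hx1 x hx) 0).mul_const (muC x.2)
    simpa using this
  have hdiff : Differentiable ℂ (fun A : ℂ => (pw (A / L) * muC) n) := by
    simp only [hsum]
    apply Differentiable.fun_sum
    intro x hx
    exact (hd x.1 (hx1 x hx)).mul_const _
  refine ⟨?_, ?_, ?_, ?_⟩
  · rw [Cav.cav_entire (hd n hn)]
    simp
  · rw [Cav.cav_inv (hd n hn), (Cav.hasDeriv L hn 0).deriv]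
    simp [hL]
  · rw [Cav.cav_entire hdiff]
    have h : ((ArithmeticFunction.zeta : ArithmeticFunction ℂ) *
        ((ArithmeticFunction.moebius : ArithmeticFunction ℤ) : ArithmeticFunction ℂ)) n =
        (1 : ArithmeticFunction ℂ) n := by
      rw [ArithmeticFunction.coe_zeta_mul_coe_moebius]
    rw [← h, hsum, ArithmeticFunction.mul_apply]
    refine Finset.sum_congr rfl fun x hx => ?_
    simp [muC, hx1 x hx]
  · rw [Cav.cav_inv hdiff, hder.deriv]
    have h : (ArithmeticFunction.log *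
        ((ArithmeticFunction.moebius : ArithmeticFunction ℤ) : ArithmeticFunction ℝ)) n =
        ArithmeticFunction.vonMangoldt n := by
      rw [ArithmeticFunction.log_mul_moebius_eq_vonMangoldt]
    unfold La
    rw [← h, ArithmeticFunction.mul_apply]
    push_cast
    rw [Finset.sum_div, ← Finset.sum_neg_distrib]
    refine Finset.sum_congr rfl fun x hx => ?_
    simp [muC, hL]
    ring

end Pool.Agent.Lib.MP_6bc78b_nt.MS.P3.H17
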